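import Pool.Agent.MP_7b45f6_mp.H32.Spec

/-!
# Mirror doubling of a one-sided system
-/

set_option autoImplicit false

namespace Pool.Agent.MP_7b45f6_mp.H32

open Classical Filter Topology

namespace HalfA

/-- A list followed by the reversed mirror image of another one. -/
def dbl (i : Fin 3) (c : ℤ) (s s' : List P) : List P := s ++ (s'.map (mir i c)).reverse

/-- The ends of a list. -/
noncomputable def ends (s : List P) : P × P × Bool := (hd s, lt s, decide (s = []))

variable {i : Fin 3} {c : ℤ}

theorem dbl_perm (s s' : List P) : (dbl i c s s').Perm (s ++ s'.map (mir i c)) :=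
  (List.reverse_perm _).append_left s

theorem tot_dbl (I : Finset (Fin 3)) {s s' : List P} (hs : s ≠ []) (hs' : s' ≠ [])
    (h : ends s = ends s') : tot I (dbl i c s s') = len s + len s' + (2 * ds i c (lt s) + 1) +
      if i ∈ I then 2 * ds i c (hd s) + 1 else 0 := by
  have h1 : hd s = hd s' := congrArg Prod.fst h
  have h2 : lt s = lt s' := congrArg (fun x => x.2.1) h
  have h3 : (s'.map (mir i c)).reverse ≠ [] := by simpa using hs'
  have h4 : len (s'.map (mir i c)).reverse = len s' := by
    rw [len_reverse]; exact cs_map (d1_mir i c) s'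
  rw [tot, dbl, lt_append _ h3, hd_append hs, lt_reverse, hd_map _ hs', ← h1, dI_comm, dI_mir,
    ds_eq, len, cs_append _ hs h3, hd_reverse, lt_map _ hs', ← h2, ← dI_univ, dI_mir,
    if_pos (Finset.mem_univ _), ds_eq]
  unfold len at h4 ⊢
  omega

theorem jn_dbl (s s' : List P) : jn (dbl i c s s') ≤ jn s + jn s' + 1 := by
  have h4 : jn (s'.map (mir i c)).reverse = jn s' := by
    rw [jn_reverse]
    refine cs_map (fun p q => ?_) s'
    have : Adj (mir i c p) (mir i c q) ↔ Adj p q := by rw [Adj, d1_mir, Adj]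
    simp [jmp, this]
  by_cases hs : s = []
  · rw [dbl, hs, List.nil_append, h4]; omega
  by_cases h3 : (s'.map (mir i c)).reverse = []
  · rw [dbl, h3, List.append_nil]; omega
  have := jmp_le (lt s) (hd (s'.map (mir i c)).reverse)
  rw [dbl, jn, cs_append _ hs h3]
  unfold jn at h4 ⊢
  omega

theorem dec_dbl {σ : Prop} {s s' : List P} (hs : ∀ p ∈ s, (p i ≤ c ↔ σ))
    (hs' : ∀ p ∈ s', (p i ≤ c ↔ σ)) :
    (dbl i c s s').filter (fun p => decide (p i ≤ c ↔ σ)) = s ∧
      ((dbl i c s s').filter fun p => !decide (p i ≤ c ↔ σ)).reverse.map (mir i c) = s' := by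
  have h1 : ∀ p ∈ (s'.map (mir i c)).reverse, ¬ (p i ≤ c ↔ σ) := by
    intro p hp
    obtain ⟨q, hq, rfl⟩ := List.mem_map.1 (List.mem_reverse.1 hp)
    rw [← hs' q hq, mir_same]
    omega
  constructor
  · rw [dbl, List.filter_append, List.filter_eq_self.2 fun p hp => decide_eq_true (hs p hp),
      List.filter_eq_nil_iff.2 fun p hp => by simpa using h1 p hp, List.append_nil]
  · rw [dbl, List.filter_append, List.filter_eq_nil_iff.2 fun p hp => by simpa using hs p hp,
      List.filter_eq_self.2 fun p hp => by simpa using h1 p hp]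
    simp [Function.comp_def]

theorem zip_facts {σ : Prop} (L : List (List P)) : ∀ L' : List (List P), L.map ends = L'.map ends →
    (∀ s ∈ L, s ≠ []) → (∀ s ∈ L', s ≠ []) → (∀ p ∈ L.flatten, (p i ≤ c ↔ σ)) →
    (∀ p ∈ L'.flatten, (p i ≤ c ↔ σ)) →
    (List.zipWith (dbl i c) L L').flatten.Perm (L.flatten ++ L'.flatten.map (mir i c)) ∧
    ((List.zipWith (dbl i c) L L').map (tot Finset.univ)).sum =
      (L.map (ch i c)).sum + (L'.map (ch i c)).sum ∧
    ((List.zipWith (dbl i c) L L').map jn).sum ≤ (L.map jn).sum + (L'.map jn).sum + L.length ∧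
    (List.zipWith (dbl i c) L L').length = L.length ∧
    (List.zipWith (dbl i c) L L').map (List.filter fun p => decide (p i ≤ c ↔ σ)) = L ∧
    (List.zipWith (dbl i c) L L').map
      (fun s => (s.filter fun p => !decide (p i ≤ c ↔ σ)).reverse.map (mir i c)) = L' := by
  induction L with
  | nil =>
    intro L' h _ _ _ _
    obtain rfl : L' = [] := by simpa using h.symm
    simp
  | cons s L ih =>
    intro L' h h1 h2 h3 h4
    cases L' with
    | nil => simp at h
    | cons s' L' =>
      simp only [List.map_cons, List.cons.injEq] at h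
      simp only [List.flatten_cons, List.mem_append] at h3 h4
      obtain ⟨a1, a2, a3, a4, a5, a6⟩ := ih L' h.2 (fun t ht => h1 t (List.mem_cons_of_mem _ ht))
        (fun t ht => h2 t (List.mem_cons_of_mem _ ht)) (fun p hp => h3 p (Or.inr hp))
        fun p hp => h4 p (Or.inr hp)
      have b1 := tot_dbl (i := i) (c := c) Finset.univ (h1 s List.mem_cons_self)
        (h2 s' List.mem_cons_self) h.1
      have b2 := jn_dbl (i := i) (c := c) s s'
      have b3 := dec_dbl (i := i) (c := c) (fun p hp => h3 p (Or.inl hp))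
        fun p hp => h4 p (Or.inl hp)
      have e1 : hd s = hd s' := congrArg Prod.fst h.1
      have e2 : lt s = lt s' := congrArg (fun x => x.2.1) h.1
      rw [if_pos (Finset.mem_univ _)] at b1
      simp only [List.zipWith_cons_cons, List.flatten_cons, List.map_cons, List.sum_cons,
        List.length_cons, List.map_append, a2, a4, a5, a6, b3.1, b3.2, and_true]
      refine ⟨((dbl_perm s s').append a1).trans ?_, ?_, by omega⟩
      · simp only [List.append_assoc]
        exact (List.perm_append_comm_assoc _ _ _).append_left s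
      · rw [b1, ch, ch, ← e1, ← e2]
        omega

/-- The doubled system. -/
def dsy (i : Fin 3) (c : ℤ) (z : Sy × Sy) : Sy :=
  (dbl i c z.1.1 z.2.1, List.zipWith (dbl i c) z.1.2 z.2.2)

/-- The inverse of doubling. -/
noncomputable def dec (i : Fin 3) (c : ℤ) (σ : Prop) (y : Sy) : Sy × Sy :=
  ((y.1.filter fun p => decide (p i ≤ c ↔ σ), y.2.map (List.filter fun p => decide (p i ≤ c ↔ σ))),
    ((y.1.filter fun p => !decide (p i ≤ c ↔ σ)).reverse.map (mir i c),
      y.2.map fun s => (s.filter fun p => !decide (p i ≤ c ↔ σ)).reverse.map (mir i c)))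

theorem main (θ : Par) {σ : Prop} {I : Finset (Fin 3)} {k j M K : ℕ} {R : ℝ} (hi : i ≠ 2)
    (hc : c.natAbs ≤ M) {x x' : Sy} (hx : x ∈ Half i c σ I k j M K R)
    (hx' : x' ∈ Half i c σ I k j M K R) (he : (x.1 :: x.2).map ends = (x'.1 :: x'.2).map ends) :
    dsy i c (x, x') ∈ Sys I k (2 * j + k + 1) (5 * M + 3) (2 * R + 2) ∧
      (x, x') = dec i c σ (dsy i c (x, x')) ∧
      ew θ (allp x) * ew θ (allp x') ≤
        Real.exp (kap θ * (2 * R + 2 + K)) * es θ I (dsy i c (x, x')) := by
  obtain ⟨g1, g2, g3, g4, g5, g6, g7, g8, g9⟩ := hx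
  obtain ⟨f1, f2, f3, -, f5, f6, f7, -, f9⟩ := hx'
  simp only [List.map_cons, List.cons.injEq] at he
  obtain ⟨a1, a2, a3, a4, a5, a6⟩ := zip_facts (i := i) (c := c) (σ := σ) x.2 x'.2 he.2 g3 f3
    (fun p hp => g2 p (List.mem_append_right _ hp)) fun p hp => f2 p (List.mem_append_right _ hp)
  have b3 := dec_dbl (i := i) (c := c) (fun p hp => g2 p (List.mem_append_left _ hp))
    fun p hp => f2 p (List.mem_append_left _ hp)
  have hp : (allp (dsy i c (x, x'))).Perm (allp x ++ (allp x').map (mir i c)) := by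
    refine ((dbl_perm x.1 x'.1).append a1).trans ?_
    simp only [allp, List.map_append, List.append_assoc]
    exact (List.perm_append_comm_assoc _ _ _).append_left _
  have hside : ∀ q ∈ (allp x').map (mir i c), ¬ (q i ≤ c ↔ σ) := by
    intro p hp
    obtain ⟨q, hq, rfl⟩ := List.mem_map.1 hp
    rw [← f2 q hq, mir_same]
    omega
  have hz : ∀ p, mir i c p 2 = p 2 := fun p => mir_ne hi.symm c p
  have hlen : (allp (dsy i c (x, x'))).length = (allp x).length + (allp x').length := by
    rw [hp.length_eq, List.length_append, List.length_map]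
  have hst : stot I (dsy i c (x, x')) ≤ hch i c I x + hch i c I x' + 2 := by
    have e0 : x.1 = [] ↔ x'.1 = [] := by
      have := congrArg (fun t => t.2.2) he.1
      simpa [ends] using this
    change tot I (dbl i c x.1 x'.1) + _ ≤ _
    unfold hch dsy
    rw [a2]
    by_cases h0 : x.1 = []
    · rw [h0, e0.1 h0]
      simp [dbl, tot, len]
    · have h0' : x'.1 ≠ [] := fun h => h0 (e0.2 h)
      have e1 : hd x.1 = hd x'.1 := congrArg Prod.fst he.1
      have e2 : lt x.1 = lt x'.1 := congrArg (fun x => x.2.1) he.1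
      rw [tot_dbl I h0 h0' he.1, if_neg h0, if_neg h0', ← e1, ← e2]
      split_ifs <;> omega
  have hst' : (stot I (dsy i c (x, x')) : ℝ) ≤ (allp (dsy i c (x, x'))).length + (2 * R + 2) := by
    have : (stot I (dsy i c (x, x')) : ℝ) ≤ hch i c I x + hch i c I x' + 2 := by exact_mod_cast hst
    rw [hlen]
    push_cast
    linarith
  refine ⟨⟨Good.perm ⟨?_, fun p hp => ?_⟩ hp, a4.trans_le g4, ?_, ?_, hst'⟩, ?_, ?_⟩
  · refine List.Nodup.append g1.1 (f1.1.map fun p q e => ?_) fun p h1 h2 => hside p h2 (g2 p h1)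
    rw [← mir_mir i c p, e, mir_mir]
  · rcases List.mem_append.1 hp with h | h
    · exact g1.2 p h
    · obtain ⟨q, hq, rfl⟩ := List.mem_map.1 h
      rw [hz]
      exact f1.2 q hq
  · have := jn_dbl (i := i) (c := c) x.1 x'.1
    unfold sjn at g5 f5 ⊢
    unfold dsy
    dsimp only
    omega
  · have : bx (allp (dsy i c (x, x'))) ≤ 3 * M + 1 := by
      refine bx_le.2 fun p h l => ?_
      rcases List.mem_append.1 (hp.subset h) with h | h
      · have := bx_le.1 g6 p h l
        omega
      · obtain ⟨q, hq, rfl⟩ := List.mem_map.1 h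
        have := bx_le.1 f6 q hq l
        by_cases hl : l = i
        · subst hl
          rw [mir_same]
          omega
        · rw [mir_ne hl]
          omega
    omega
  · simp only [dec, dsy, a5, a6, b3.1, b3.2]
  · have e1 : (allp (dsy i c (x, x'))).toFinset =
        (allp x).toFinset ∪ ((allp x').map (mir i c)).toFinset := by
      rw [List.toFinset_eq_of_perm _ _ hp, List.toFinset_append]
    have h1 := phi_union θ (V := (allp x).toFinset) (W := ((allp x').map (mir i c)).toFinset)
      (((allp x).toFinset.filter fun p => p i = c) ∪ (allp x).toFinset.filter fun p => p i = c + 1)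
      (Finset.disjoint_left.2 fun p h1 h2 =>
        hside p (List.mem_toFinset.1 h2) (g2 p (List.mem_toFinset.1 h1))) fun p h1 q h2 ha => by
        have h3 := g2 p (List.mem_toFinset.1 h1)
        have h4 := hside q (List.mem_toFinset.1 h2)
        have h5 := coord_le_d1 p q i
        rw [← h3] at h4
        rw [show d1 p q = 1 from ha] at h5
        simp only [Finset.mem_union, Finset.mem_filter, h1, true_and]
        omega
    rw [phi_map θ (d1_mir i c) hz, ← e1] at h1
    have h2 : ((((allp x).toFinset.filter fun p => p i = c) ∪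
        (allp x).toFinset.filter fun p => p i = c + 1).card : ℝ) ≤ K := by
      exact_mod_cast (Finset.card_union_le _ _).trans g8
    have h3 := kap_nonneg θ
    have h4 := mul_le_mul_of_nonneg_left h2 h3
    have h5 := mul_le_mul_of_nonneg_left hst' h3
    rw [ew, ew, es, ← Real.exp_add, ← Real.exp_add, Real.exp_le_exp]
    linarith [(abs_le.1 h1).1]

end HalfA

open HalfA in
theorem half : HalfStmt := by
  intro θ i c σ I k j M K R G hi hc hR hG hB
  have h1 : 1 ≤ Real.exp (kap θ * (2 * R + 2 + K)) :=
    Real.one_le_exp (mul_nonneg (kap_nonneg θ) (by positivity))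
  have h2 : 1 ≤ Real.exp (kap θ * (2 * R + 2 + K)) * G := one_le_mul_of_one_le_of_one_le h1 hG
  refine (Bd.classify (T := ((box M ×ˢ box M ×ˢ (Finset.univ : Finset Bool)).card + 1) ^ (k + 1))
    (fun x : Sy => (x.1 :: x.2).map ends) (zero_le_one.trans h2) (fun t ht => ?_)
    fun b => ?_).mono subset_rfl (fun _ _ => le_rfl) (le_of_eq ?_)
  · refine card_lists _ _ t fun l hl => ?_
    obtain ⟨x, hx, rfl⟩ := ht l hl
    refine ⟨by simpa using hx.2.2.2.1, fun a ha => ?_⟩
    obtain ⟨s, hs, rfl⟩ := List.mem_map.1 ha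
    have h3 : ∀ p ∈ s, p ∈ box M := fun p hp => mem_box.2 (bx_le.1 hx.2.2.2.2.2.1 p (by
      rcases List.mem_cons.1 hs with rfl | hs
      · exact List.mem_append_left _ hp
      · exact List.mem_append_right _ (List.mem_flatten.2 ⟨s, hs, hp⟩)))
    simp only [ends, Finset.mem_product, Finset.mem_univ, and_true]
    by_cases h0 : s = []
    · simp [h0, mem_box]
    · exact ⟨h3 _ (hd_mem h0), h3 _ (lt_mem h0)⟩
  · refine Bd.of_sq ((hB.transfer (fan_fun (dec i c σ)) (zero_le_one.trans h1)
      (fun y => (es_pos θ I y).le) fun z hz => ?_).mono subset_rfl (fun _ _ => le_rfl)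
      (le_of_eq (by simp))) h2
    exact ⟨_, main θ hi hc hz.1.1 hz.2.1 (hz.1.2.trans hz.2.2.symm)⟩
  · simp only [Finset.card_product, card_box, Finset.card_univ, Fintype.card_bool]
    push_cast
    ring

end Pool.Agent.MP_7b45f6_mp.H32
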